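import Mathlib

/-!
# The arc-complexity of uniform matroids is smaller than `r (n - r)`

For `r ≥ 3` and `n - r ≥ 25` there is a standard representation of the uniform matroid `U_{r,n}`
with fewer than `r (n - r)` arcs.  The non-targets are distinct pairs of `m` auxiliary vertices
(where `n - r ≤ m (m - 1) / 2` and `3 m < n - r`); a non-target has arcs to the two auxiliary
vertices of its pair and to the targets `3, 4, ..., r - 1`, and every auxiliary vertex has arcs to
the targets `0, 1, 2`.  This is `(r - 1) (n - r) + 3 m` arcs.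
-/

namespace Pool.Agent.Results.MP_0a0514_co.UniformSmaller

open Set

/-- Paths of the digraph with arc set `A`: nonempty sequences of distinct vertices, consecutive
ones being joined by an arc. -/
def IsPath {V : Type} (A : Set (V × V)) (p : List V) : Prop :=
  p ≠ [] ∧ p.Nodup ∧ p.IsChain (fun a b => (a, b) ∈ A)

/-- `R` is a routing from `X` to `T`. -/
def IsRouting {V : Type} (A : Set (V × V)) (X T : Set V) (R : Set (List V)) : Prop :=
  (∀ p ∈ R, IsPath A p) ∧ (∀ p ∈ R, ∀ q ∈ R, p ≠ q → ∀ v ∈ p, v ∉ q) ∧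
  (∀ x ∈ X, ∃ p ∈ R, p.head? = some x) ∧ (∀ p ∈ R, ∃ t ∈ T, p.getLast? = some t)

/-- `(D, T, E)` is a standard representation of the matroid `M`; `D` has vertex set `V` and arc
set `A`, the ground set `E` of `M` is identified with vertices through the injection `f`. -/
structure IsStdRep {α V : Type} (M : Matroid α) (A : Set (V × V)) (f : α ↪ V) (T : Set α) :
    Prop where
  subset_ground : T ⊆ M.E
  indep_iff : ∀ X ⊆ M.E, (M.Indep X ↔ ∃ R, IsRouting A (f '' X) (f '' T) R)
  sink : ∀ t ∈ T, ∀ v, (f t, v) ∉ A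
  source : ∀ e ∈ M.E, e ∉ T → ∀ v, (v, f e) ∉ A

/-- The arc-complexity of a gammoid. -/
noncomputable def arcC {α : Type} (M : Matroid α) : ℕ :=
  sInf {k | ∃ (V : Type) (_ : Finite V) (A : Set (V × V)) (f : α ↪ V) (T : Set α),
    IsStdRep M A f T ∧ A.ncard = k}

/-- The uniform matroid `U_{r,n}`: the independent sets are the sets with at most `r` elements. -/
def uniform (r n : ℕ) : Matroid (Fin n) :=
  (IndepMatroid.ofFinite (toFinite univ) (fun I : Set (Fin n) => I.ncard ≤ r)
    (by simp)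
    (fun I J hJ hIJ => (ncard_le_ncard hIJ (toFinite _)).trans hJ)
    (fun I J _ hJ h => by
      have : ∃ e ∈ J, e ∉ I := by
        by_contra hcon
        push Not at hcon
        have := ncard_le_ncard (show J ⊆ I from hcon) (toFinite _)
        omega
      obtain ⟨e, heJ, heI⟩ := this
      refine ⟨e, heJ, heI, ?_⟩
      rw [ncard_insert_of_notMem heI (toFinite _)]
      omega)
    (fun I _ => subset_univ I)).matroid

theorem uniform_indep (r n : ℕ) (I : Set (Fin n)) : (uniform r n).Indep I ↔ I.ncard ≤ r := by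
  simp [uniform]

theorem uniform_E (r n : ℕ) : (uniform r n).E = univ := rfl

/-- A routed set has at most as many elements as the set of targets. -/
theorem ncard_le_of_routing {α V : Type} [Finite α] {A : Set (V × V)} {f : α ↪ V} {X T : Set α}
    {R : Set (List V)} (h : IsRouting A (f '' X) (f '' T) R) : X.ncard ≤ T.ncard := by
  classical
  obtain ⟨-, h2, h3, h4⟩ := h
  have key : ∀ x : X, ∃ t : T, ∃ p ∈ R, p.head? = some (f x) ∧ p.getLast? = some (f t) := by
    intro x
    obtain ⟨p, hp, hpx⟩ := h3 (f x) ⟨x, x.2, rfl⟩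
    obtain ⟨_, ⟨t, ht, rfl⟩, hpt⟩ := h4 p hp
    exact ⟨⟨t, ht⟩, p, hp, hpx, hpt⟩
  choose g p hp hh hl using key
  have hinj : Function.Injective g := by
    intro x y hxy
    by_contra hne
    have hpne : p x ≠ p y := by
      intro heq
      have h5 := hh x
      rw [heq, hh y] at h5
      apply hne
      apply Subtype.ext
      exact (f.injective (Option.some_injective _ h5)).symm
    have h6 : (f (g x) : V) ∈ p x := List.mem_of_getLast? (hl x)
    have h7 : (f (g y) : V) ∈ p y := List.mem_of_getLast? (hl y)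
    rw [← hxy] at h7
    exact h2 _ (hp x) _ (hp y) hpne _ h6 h7
  have := Nat.card_le_card_of_injective g hinj
  rwa [Nat.card_coe_set_eq, Nat.card_coe_set_eq] at this

section construction

variable {r N m : ℕ}

/-- The arcs of the construction. -/
def arcs (P : Fin (r + N) → Finset (Fin m)) : Set ((Fin (r + N) ⊕ Fin m) × (Fin (r + N) ⊕ Fin m)) :=
  {a | (∃ i v, r ≤ i.val ∧ v ∈ P i ∧ a = (Sum.inl i, Sum.inr v)) ∨
    (∃ (v : Fin m) (t : Fin (r + N)), t.val < 3 ∧ a = (Sum.inr v, Sum.inl t)) ∨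
    (∃ i t : Fin (r + N), r ≤ i.val ∧ 3 ≤ t.val ∧ t.val < r ∧ a = (Sum.inl i, Sum.inl t))}

theorem arcs_card (hr : 3 ≤ r) (P : Fin (r + N) → Finset (Fin m))
    (hP : ∀ i : Fin (r + N), r ≤ i.val → (P i).card = 2) :
    (arcs P).ncard ≤ (r - 1) * N + 3 * m := by
  classical
  -- explicit finite sets
  let I : Finset (Fin (r + N)) := Finset.univ.filter (fun i => r ≤ i.val)
  have hI : I.card = N := by
    have : I = Finset.univ.map (Fin.natAddEmb r : Fin N ↪ Fin (r + N)) := by
      ext i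
      simp only [I, Finset.mem_filter, Finset.mem_univ, true_and, Finset.mem_map]
      constructor
      · intro h
        refine ⟨⟨i.val - r, by omega⟩, ?_⟩
        apply Fin.ext
        simp
        omega
      · rintro ⟨j, rfl⟩
        simp
    rw [this, Finset.card_map, Finset.card_univ, Fintype.card_fin]
  let T3 : Finset (Fin (r + N)) := Finset.univ.filter (fun t => t.val < 3)
  have hT3 : T3.card ≤ 3 := by
    have : T3.image Fin.val ⊆ Finset.range 3 := by
      intro x hx
      simp only [T3, Finset.mem_image, Finset.mem_filter, Finset.mem_univ, true_and] at hx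
      obtain ⟨t, ht, rfl⟩ := hx
      exact Finset.mem_range.2 ht
    have h := Finset.card_le_card this
    rwa [Finset.card_image_of_injective _ Fin.val_injective, Finset.card_range] at h
  let T4 : Finset (Fin (r + N)) := Finset.univ.filter (fun t => 3 ≤ t.val ∧ t.val < r)
  have hT4 : T4.card ≤ r - 3 := by
    have : T4.image Fin.val ⊆ Finset.Ico 3 r := by
      intro x hx
      simp only [T4, Finset.mem_image, Finset.mem_filter, Finset.mem_univ, true_and] at hx
      obtain ⟨t, ht, rfl⟩ := hx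
      exact Finset.mem_Ico.2 ht
    have h := Finset.card_le_card this
    rwa [Finset.card_image_of_injective _ Fin.val_injective, Nat.card_Ico] at h
  let F1 : Finset ((Fin (r + N) ⊕ Fin m) × (Fin (r + N) ⊕ Fin m)) :=
    I.biUnion (fun i => (P i).image (fun v => (Sum.inl i, Sum.inr v)))
  let F2 : Finset ((Fin (r + N) ⊕ Fin m) × (Fin (r + N) ⊕ Fin m)) :=
    ((Finset.univ : Finset (Fin m)) ×ˢ T3).image (fun q => (Sum.inr q.1, Sum.inl q.2))
  let F3 : Finset ((Fin (r + N) ⊕ Fin m) × (Fin (r + N) ⊕ Fin m)) :=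
    (I ×ˢ T4).image (fun q => (Sum.inl q.1, Sum.inl q.2))
  have hF1 : F1.card ≤ N * 2 := by
    refine le_of_le_of_eq ?_ (congrArg (· * 2) hI)
    refine Finset.card_biUnion_le_card_mul _ _ _ (fun i hi => ?_)
    refine Finset.card_image_le.trans ?_
    rw [hP i (by simpa [I] using hi)]
  have hF2 : F2.card ≤ m * 3 := by
    refine Finset.card_image_le.trans ?_
    rw [Finset.card_product, Finset.card_univ, Fintype.card_fin]
    exact Nat.mul_le_mul_left _ hT3
  have hF3 : F3.card ≤ N * (r - 3) := by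
    refine Finset.card_image_le.trans ?_
    rw [Finset.card_product, hI]
    exact Nat.mul_le_mul_left _ hT4
  have hsub : arcs P ⊆ ((F1 ∪ F2 ∪ F3 : Finset _) : Set _) := by
    rintro a (⟨i, v, h1, h2, rfl⟩ | ⟨v, t, h1, rfl⟩ | ⟨i, t, h1, h2, h3, rfl⟩)
    · simp only [Finset.coe_union, mem_union, Finset.mem_coe]
      left; left
      simp only [F1, Finset.mem_biUnion, Finset.mem_image]
      exact ⟨i, by simpa [I] using h1, v, h2, rfl⟩
    · simp only [Finset.coe_union, mem_union, Finset.mem_coe]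
      left; right
      simp only [F2, Finset.mem_image, Finset.mem_product]
      exact ⟨(v, t), ⟨Finset.mem_univ _, by simpa [T3] using h1⟩, rfl⟩
    · simp only [Finset.coe_union, mem_union, Finset.mem_coe]
      right
      simp only [F3, Finset.mem_image, Finset.mem_product]
      exact ⟨(i, t), ⟨by simpa [I] using h1, by simpa [T4] using ⟨h2, h3⟩⟩, rfl⟩
  have h1 := ncard_le_ncard hsub (toFinite _)
  rw [ncard_coe_finset] at h1
  have h2 : (F1 ∪ F2 ∪ F3).card ≤ F1.card + F2.card + F3.card :=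
    (Finset.card_union_le _ _).trans (Nat.add_le_add_right (Finset.card_union_le _ _) _)
  obtain ⟨s, rfl⟩ : ∃ s, r = s + 3 := ⟨r - 3, by omega⟩
  have e1 : s + 3 - 3 = s := by omega
  have e2 : s + 3 - 1 = s + 2 := by omega
  rw [e1] at hF3
  rw [e2]
  nlinarith

/-- The routing. -/
theorem exists_routing (hr : 3 ≤ r) (P : Fin (r + N) → Finset (Fin m))
    (hP : ∀ i : Fin (r + N), r ≤ i.val → (P i).card = 2)
    (hinj : ∀ i j : Fin (r + N), r ≤ i.val → r ≤ j.val → P i = P j → i = j)
    (X : Set (Fin (r + N))) (hX : X.ncard ≤ r) :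
    ∃ R, IsRouting (arcs P) ((Sum.inl : Fin (r + N) → Fin (r + N) ⊕ Fin m) '' X)
      ((Sum.inl : Fin (r + N) → Fin (r + N) ⊕ Fin m) '' {t | t.val < r}) R := by
  classical
  -- split `X`
  set T : Set (Fin (r + N)) := {t | t.val < r} with hT
  have hTc : T.ncard = r := by
    have : T = ((Finset.univ.map (Fin.castAddEmb N : Fin r ↪ Fin (r + N)) : Finset _) : Set _) := by
      ext i
      simp only [hT, mem_ofPred, Finset.coe_map, Finset.coe_univ, image_univ, mem_range]
      constructor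
      · intro h
        exact ⟨⟨i.val, h⟩, Fin.ext rfl⟩
      · rintro ⟨j, rfl⟩
        exact j.2
    rw [this, ncard_coe_finset, Finset.card_map, Finset.card_univ, Fintype.card_fin]
  have hcard : (X \ T).ncard ≤ (T \ X).ncard := by
    have h1 := ncard_inter_add_ncard_sdiff_eq_ncard X T (toFinite _)
    have h2 := ncard_inter_add_ncard_sdiff_eq_ncard T X (toFinite _)
    rw [inter_comm] at h2
    omega
  have hex : ∃ g : (X \ T : Set (Fin (r + N))) → (T \ X : Set (Fin (r + N))),
      Function.Injective g := by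
    rw [← Nat.card_coe_set_eq, ← Nat.card_coe_set_eq, Nat.card_eq_fintype_card,
      Nat.card_eq_fintype_card] at hcard
    obtain ⟨g⟩ := Function.Embedding.nonempty_of_card_le hcard
    exact ⟨g, g.injective⟩
  obtain ⟨g, hg⟩ := hex
  -- the elements using the auxiliary vertices
  let K : Type := {x : (X \ T : Set (Fin (r + N))) // ((g x : Fin (r + N))).val < 3}
  have hKr : ∀ x : K, r ≤ (x.1.1).val := fun x => not_lt.1 x.1.2.2
  have hKc : Fintype.card K ≤ 3 := by
    let φ : K → Fin 3 := fun x => ⟨((g x.1 : Fin (r + N))).val, x.2⟩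
    have hφ : Function.Injective φ := by
      intro x y hxy
      have h1 : ((g x.1 : Fin (r + N))).val = ((g y.1 : Fin (r + N))).val := by
        have := congrArg Fin.val hxy
        exact this
      have h2 : g x.1 = g y.1 := Subtype.ext (Fin.ext h1)
      exact Subtype.ext (hg h2)
    have := Fintype.card_le_of_injective φ hφ
    simpa using this
  have hall : ∃ h : K → Fin m, Function.Injective h ∧ ∀ x, h x ∈ P x.1.1 := by
    rw [← Finset.all_card_le_biUnion_card_iff_exists_injective (fun x : K => P x.1.1)]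
    intro S
    rcases Nat.lt_or_ge S.card 2 with h1 | h1
    · rcases Nat.eq_zero_or_pos S.card with h0 | h0
      · omega
      · obtain ⟨x, hx⟩ := Finset.card_pos.1 h0
        have h3 : P x.1.1 ⊆ S.biUnion (fun x : K => P x.1.1) :=
          Finset.subset_biUnion_of_mem (fun x : K => P x.1.1) hx
        have h4 := Finset.card_le_card h3
        rw [hP _ (hKr x)] at h4
        omega
    · have hS3 : S.card ≤ 3 := (Finset.card_le_univ S).trans hKc
      obtain ⟨x, hx, y, hy, hxy⟩ := Finset.one_lt_card.1 h1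
      have h3 : P x.1.1 ∪ P y.1.1 ⊆ S.biUnion (fun x : K => P x.1.1) :=
        Finset.union_subset (Finset.subset_biUnion_of_mem (fun x : K => P x.1.1) hx)
          (Finset.subset_biUnion_of_mem (fun x : K => P x.1.1) hy)
      have h4 := Finset.card_le_card h3
      have hne : P x.1.1 ≠ P y.1.1 := by
        intro h
        exact hxy (Subtype.ext (Subtype.ext (hinj _ _ (hKr x) (hKr y) h)))
      have h5 : 3 ≤ (P x.1.1 ∪ P y.1.1).card := by
        have h6 : P x.1.1 ⊂ P x.1.1 ∪ P y.1.1 := by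
          refine ⟨Finset.subset_union_left, fun h => hne ?_⟩
          have h7 : P y.1.1 ⊆ P x.1.1 := Finset.subset_union_right.trans h
          exact (Finset.eq_of_subset_of_card_le h7 (by rw [hP _ (hKr x), hP _ (hKr y)])).symm
        have h8 := Finset.card_lt_card h6
        rw [hP _ (hKr x)] at h8
        omega
      omega
  obtain ⟨h, hh, hhP⟩ := hall
  -- the paths
  let pth : X → List (Fin (r + N) ⊕ Fin m) := fun x =>
    if h1 : x.1 ∈ T then [Sum.inl x.1] else
      if h2 : ((g ⟨x.1, x.2, h1⟩ : Fin (r + N))).val < 3 then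
        [Sum.inl x.1, Sum.inr (h ⟨⟨x.1, x.2, h1⟩, h2⟩), Sum.inl (g ⟨x.1, x.2, h1⟩ : Fin (r + N))]
      else [Sum.inl x.1, Sum.inl (g ⟨x.1, x.2, h1⟩ : Fin (r + N))]
  -- three cases
  have cases : ∀ x : X, (x.1 ∈ T ∧ pth x = [Sum.inl x.1]) ∨
      (∃ (h1 : x.1 ∉ T) (h2 : ((g ⟨x.1, x.2, h1⟩ : Fin (r + N))).val < 3),
        pth x = [Sum.inl x.1, Sum.inr (h ⟨⟨x.1, x.2, h1⟩, h2⟩),
          Sum.inl (g ⟨x.1, x.2, h1⟩ : Fin (r + N))]) ∨
      (∃ (h1 : x.1 ∉ T) (_ : ¬ ((g ⟨x.1, x.2, h1⟩ : Fin (r + N))).val < 3),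
        pth x = [Sum.inl x.1, Sum.inl (g ⟨x.1, x.2, h1⟩ : Fin (r + N))]) := by
    intro x
    by_cases h1 : x.1 ∈ T
    · left; exact ⟨h1, dif_pos h1⟩
    · by_cases h2 : ((g ⟨x.1, x.2, h1⟩ : Fin (r + N))).val < 3
      · right; left
        refine ⟨h1, h2, ?_⟩
        show (dite _ _ _) = _
        rw [dif_neg h1, dif_pos h2]
      · right; right
        refine ⟨h1, h2, ?_⟩
        show (dite _ _ _) = _
        rw [dif_neg h1, dif_neg h2]
  have hmemT : ∀ y : (X \ T : Set (Fin (r + N))), ((g y : Fin (r + N))) ∈ T := fun y => (g y).2.1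
  have hnotX : ∀ y : (X \ T : Set (Fin (r + N))), ((g y : Fin (r + N))) ∉ X := fun y => (g y).2.2
  -- the vertices of the paths
  have hvert : ∀ x : X, ∀ v ∈ pth x, (v = Sum.inl x.1) ∨
      (∃ h1 : x.1 ∉ T, v = Sum.inl (g ⟨x.1, x.2, h1⟩ : Fin (r + N))) ∨
      (∃ (h1 : x.1 ∉ T) (h2 : ((g ⟨x.1, x.2, h1⟩ : Fin (r + N))).val < 3),
        v = Sum.inr (h ⟨⟨x.1, x.2, h1⟩, h2⟩)) := by
    intro x v hv
    rcases cases x with ⟨h1, e⟩ | ⟨h1, h2, e⟩ | ⟨h1, h2, e⟩
    · rw [e] at hv; simp at hv; exact Or.inl hv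
    · rw [e] at hv; simp at hv
      rcases hv with hv | hv | hv
      · exact Or.inl hv
      · exact Or.inr (Or.inr ⟨h1, h2, hv⟩)
      · exact Or.inr (Or.inl ⟨h1, hv⟩)
    · rw [e] at hv; simp at hv
      rcases hv with hv | hv
      · exact Or.inl hv
      · exact Or.inr (Or.inl ⟨h1, hv⟩)
  refine ⟨range pth, ?_, ?_, ?_, ?_⟩
  · rintro _ ⟨x, rfl⟩
    rcases cases x with ⟨h1, e⟩ | ⟨h1, h2, e⟩ | ⟨h1, h2, e⟩
    · rw [e]
      exact ⟨by simp, by simp, by simp⟩
    · rw [e]
      have hne : x.1 ≠ (g ⟨x.1, x.2, h1⟩ : Fin (r + N)) := fun he => hnotX _ (he ▸ x.2)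
      refine ⟨by simp, by simp [hne], ?_⟩
      simp only [List.isChain_cons_cons, List.isChain_singleton, and_true]
      refine ⟨Or.inl ⟨x.1, _, not_lt.1 h1, hhP ⟨⟨x.1, x.2, h1⟩, h2⟩, rfl⟩,
        Or.inr (Or.inl ⟨_, _, h2, rfl⟩)⟩
    · rw [e]
      have hne : x.1 ≠ (g ⟨x.1, x.2, h1⟩ : Fin (r + N)) := fun he => hnotX _ (he ▸ x.2)
      refine ⟨by simp, by simp [hne], ?_⟩
      simp only [List.isChain_cons_cons, List.isChain_singleton, and_true]
      exact Or.inr (Or.inr ⟨x.1, _, not_lt.1 h1, not_lt.1 h2, hmemT _, rfl⟩)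
  · rintro _ ⟨x, rfl⟩ _ ⟨y, rfl⟩ hne v hv1 hv2
    have hxy : x ≠ y := by rintro rfl; exact hne rfl
    rcases hvert x v hv1 with e1 | ⟨h1, e1⟩ | ⟨h1, h2, e1⟩
    · rcases hvert y v hv2 with e2 | ⟨h3, e2⟩ | ⟨h3, h4, e2⟩
      · rw [e1] at e2
        exact hxy (Subtype.ext (Sum.inl_injective e2))
      · rw [e1] at e2
        exact hnotX _ ((Sum.inl_injective e2) ▸ x.2)
      · rw [e1] at e2; exact absurd e2 (by simp)
    · rcases hvert y v hv2 with e2 | ⟨h3, e2⟩ | ⟨h3, h4, e2⟩
      · rw [e1] at e2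
        exact hnotX _ ((Sum.inl_injective e2).symm ▸ y.2)
      · rw [e1] at e2
        have h5 := hg (Subtype.ext (Sum.inl_injective e2))
        exact hxy (Subtype.ext (congrArg (fun z : (X \ T : Set (Fin (r + N))) =>
          (z : Fin (r + N))) h5))
      · rw [e1] at e2; exact absurd e2 (by simp)
    · rcases hvert y v hv2 with e2 | ⟨h3, e2⟩ | ⟨h3, h4, e2⟩
      · rw [e1] at e2; exact absurd e2 (by simp)
      · rw [e1] at e2; exact absurd e2 (by simp)
      · rw [e1] at e2
        have h5 := hh (Sum.inr_injective e2)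
        exact hxy (Subtype.ext (congrArg (fun z : K => (z.1.1 : Fin (r + N))) h5))
  · rintro _ ⟨x, hx, rfl⟩
    refine ⟨pth ⟨x, hx⟩, ⟨_, rfl⟩, ?_⟩
    rcases cases ⟨x, hx⟩ with ⟨h1, e⟩ | ⟨h1, h2, e⟩ | ⟨h1, h2, e⟩
    · rw [e]; rfl
    · rw [e]; rfl
    · rw [e]; rfl
  · rintro _ ⟨x, rfl⟩
    rcases cases x with ⟨h1, e⟩ | ⟨h1, h2, e⟩ | ⟨h1, h2, e⟩
    · exact ⟨_, ⟨x.1, h1, rfl⟩, by rw [e]; rfl⟩
    · exact ⟨_, ⟨_, hmemT ⟨x.1, x.2, h1⟩, rfl⟩, by rw [e]; rfl⟩
    · exact ⟨_, ⟨_, hmemT ⟨x.1, x.2, h1⟩, rfl⟩, by rw [e]; rfl⟩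

theorem isStdRep (hr : 3 ≤ r) (P : Fin (r + N) → Finset (Fin m))
    (hP : ∀ i : Fin (r + N), r ≤ i.val → (P i).card = 2)
    (hinj : ∀ i j : Fin (r + N), r ≤ i.val → r ≤ j.val → P i = P j → i = j) :
    IsStdRep (uniform r (r + N)) (arcs P) (⟨Sum.inl, Sum.inl_injective⟩ : _ ↪ _) {t | t.val < r}
    where
  subset_ground := subset_univ _
  indep_iff := by
    intro X _
    rw [uniform_indep]
    constructor
    · intro hX
      exact exists_routing hr P hP hinj X hX
    · rintro ⟨R, hR⟩
      refine (ncard_le_of_routing hR).trans ?_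
      have h1 : (Fin.val '' {t : Fin (r + N) | t.val < r}) ⊆ ((Finset.range r : Finset ℕ) : Set ℕ) := by
        rintro _ ⟨t, ht, rfl⟩
        exact Finset.mem_coe.2 (Finset.mem_range.2 ht)
      have h2 := ncard_le_ncard h1 (toFinite _)
      rwa [ncard_image_of_injective _ Fin.val_injective, ncard_coe_finset,
        Finset.card_range] at h2
  sink := by
    rintro t ht v (⟨i, w, h1, -, h2⟩ | ⟨w, s, -, h2⟩ | ⟨i, s, h1, -, -, h2⟩)
    · rw [Prod.mk.injEq] at h2
      have h3 : t = i := Sum.inl_injective h2.1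
      subst h3
      have ht' : t.val < r := ht
      omega
    · rw [Prod.mk.injEq] at h2
      exact absurd h2.1 (by simp)
    · rw [Prod.mk.injEq] at h2
      have h3 : t = i := Sum.inl_injective h2.1
      subst h3
      have ht' : t.val < r := ht
      omega
  source := by
    rintro e - he v (⟨i, w, h1, -, h2⟩ | ⟨w, s, h1, h2⟩ | ⟨i, s, -, -, h1, h2⟩)
    · rw [Prod.mk.injEq] at h2
      exact absurd h2.2 (by simp)
    · rw [Prod.mk.injEq] at h2
      have h3 : e = s := Sum.inl_injective h2.2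
      subst h3
      exact he (show e.val < r by omega)
    · rw [Prod.mk.injEq] at h2
      have h3 : e = s := Sum.inl_injective h2.2
      subst h3
      exact he h1

theorem arcC_le (hr : 3 ≤ r) (hN : N ≤ m.choose 2) :
    arcC (uniform r (r + N)) ≤ (r - 1) * N + 3 * m := by
  classical
  -- choose distinct pairs
  have hcard : Fintype.card (Fin N) ≤ (Finset.powersetCard 2 (Finset.univ : Finset (Fin m))).card := by
    rw [Fintype.card_fin, Finset.card_powersetCard, Finset.card_univ, Fintype.card_fin]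
    exact hN
  have hex : ∃ q : Fin N → Finset (Fin m), Function.Injective q ∧ ∀ j, (q j).card = 2 := by
    rw [← Fintype.card_coe] at hcard
    obtain ⟨g⟩ := Function.Embedding.nonempty_of_card_le hcard
    refine ⟨fun j => (g j).1, fun i j h => g.injective (Subtype.ext h), fun j => ?_⟩
    exact (Finset.mem_powersetCard.1 (g j).2).2
  obtain ⟨q, hq, hq2⟩ := hex
  let P : Fin (r + N) → Finset (Fin m) := fun i =>
    if h : r ≤ i.val then q ⟨i.val - r, by omega⟩ else ∅
  have hP : ∀ i : Fin (r + N), r ≤ i.val → (P i).card = 2 := by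
    intro i hi
    show (dite _ _ _ : Finset (Fin m)).card = 2
    rw [dif_pos hi]; exact hq2 _
  have hinj : ∀ i j : Fin (r + N), r ≤ i.val → r ≤ j.val → P i = P j → i = j := by
    intro i j hi hj h
    have h1 : (dite _ _ _ : Finset (Fin m)) = dite _ _ _ := h
    rw [dif_pos hi, dif_pos hj] at h1
    have h2 := congrArg Fin.val (hq h1)
    apply Fin.ext
    simp only at h2
    omega
  have hmem : (arcs P).ncard ∈ {k | ∃ (V : Type) (_ : Finite V) (A : Set (V × V))
      (f : Fin (r + N) ↪ V) (T : Set (Fin (r + N))),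
      IsStdRep (uniform r (r + N)) A f T ∧ A.ncard = k} :=
    ⟨Fin (r + N) ⊕ Fin m, inferInstance, arcs P, ⟨Sum.inl, Sum.inl_injective⟩,
      {t | t.val < r}, isStdRep hr P hP hinj, rfl⟩
  refine (Nat.sInf_le hmem).trans ?_
  exact arcs_card hr P hP

end construction

theorem exists_m (N : ℕ) (hN : 25 ≤ N) : ∃ m, N ≤ m.choose 2 ∧ 3 * m < N := by
  induction N, hN using Nat.le_induction with
  | base => exact ⟨8, by decide, by norm_num⟩
  | succ N hN ih =>
    obtain ⟨m, h1, h2⟩ := ih
    by_cases h : N + 1 ≤ m.choose 2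
    · exact ⟨m, h, by omega⟩
    · have h3 : m.choose 2 = N := by omega
      have h4 : (m + 1).choose 2 = m + m.choose 2 := by
        rw [Nat.choose_succ_succ' m 1, Nat.choose_one_right]
      have h5 : m.choose 2 * 2 = m * (m - 1) := by
        rw [Nat.choose_two_right]
        exact Nat.div_mul_cancel (Nat.even_mul_pred_self m).two_dvd
      have hm : 8 ≤ m := by
        by_contra hlt
        push Not at hlt
        have : m * (m - 1) ≤ 7 * 6 := Nat.mul_le_mul (by omega) (by omega)
        omega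
      obtain ⟨k, rfl⟩ : ∃ k, m = k + 8 := ⟨m - 8, by omega⟩
      have e1 : k + 8 - 1 = k + 7 := by omega
      rw [e1] at h5
      refine ⟨k + 8 + 1, ?_, ?_⟩
      · rw [h4, h3]; omega
      · rw [h3] at h5
        nlinarith

/-- **Negative answer to Q1.**  For all `r ≥ 3` and all `n` with `n - r ≥ 25` one has
`arcC(U_{r,n}) < r (n - r)`. -/
theorem result : ∀ r n : ℕ, 3 ≤ r → r + 25 ≤ n → arcC (uniform r n) < r * (n - r) := by
  intro r n hr hn
  obtain ⟨N, rfl⟩ : ∃ N, n = r + N := ⟨n - r, by omega⟩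
  obtain ⟨m, h1, h2⟩ := exists_m N (by omega)
  have h3 := arcC_le hr h1
  have e1 : r + N - r = N := by omega
  rw [e1]
  obtain ⟨s, rfl⟩ : ∃ s, r = s + 1 := ⟨r - 1, by omega⟩
  have e2 : s + 1 - 1 = s := by omega
  rw [e2] at h3
  have e3 : (s + 1) * N = s * N + N := by ring
  omega

end Pool.Agent.Results.MP_0a0514_co.UniformSmaller
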